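import Mathlib

/-!
# The number of direct products of a finite group with groups of prime power order

`Gp γ` is the central extension of `(ZMod ℓ) ^ r` by `(ZMod ℓ) ^ s` with the products of the generators
prescribed by `γ`. A finite group `H` contains at most `|H| ^ (r + s)` of these groups (up to the choice of
`γ`), and so for a fixed finite group `G` the groups `G × A`, `A` a group of order a power of `ℓ`,
`|G × A| ≤ N`, form at least `N ^ ((2 / 27 - ε) (log_ℓ N) ^ 2)` isomorphism classes (Higman's lower bound, with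
a factor `G`).
-/

set_option autoImplicit false

open Filter

namespace Pool.Agent.Helper98.NG

/-- the index set of the commutators -/
abbrev T (r : ℕ) : Type := {x : Fin r × Fin r // x.2 < x.1}

/-- the parameters -/
abbrev Par (ℓ r s : ℕ) : Type := T r → (Fin s → ZMod ℓ)

/-- the bilinear map with the values `γ (i, j)`, `j < i`, and the value zero for `i ≤ j` -/
def bil {ℓ r s : ℕ} (γ : Par ℓ r s) (u v : Fin r → ZMod ℓ) : Fin s → ZMod ℓ :=
  ∑ x : T r, (u x.1.1 * v x.1.2) • γ x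

lemma bil_add_left {ℓ r s : ℕ} (γ : Par ℓ r s) (u u' v : Fin r → ZMod ℓ) :
    bil γ (u + u') v = bil γ u v + bil γ u' v := by
  simp only [bil, Pi.add_apply, add_mul, add_smul, Finset.sum_add_distrib]

lemma bil_add_right {ℓ r s : ℕ} (γ : Par ℓ r s) (u v v' : Fin r → ZMod ℓ) :
    bil γ u (v + v') = bil γ u v + bil γ u v' := by
  simp only [bil, Pi.add_apply, mul_add, add_smul, Finset.sum_add_distrib]

lemma bil_zero_left {ℓ r s : ℕ} (γ : Par ℓ r s) (v : Fin r → ZMod ℓ) : bil γ 0 v = 0 := by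
  simp [bil]

lemma bil_zero_right {ℓ r s : ℕ} (γ : Par ℓ r s) (v : Fin r → ZMod ℓ) : bil γ v 0 = 0 := by
  simp [bil]

lemma bil_neg_left {ℓ r s : ℕ} (γ : Par ℓ r s) (u v : Fin r → ZMod ℓ) :
    bil γ (-u) v = -bil γ u v := by
  simp only [bil, Pi.neg_apply, neg_mul, neg_smul, Finset.sum_neg_distrib]

lemma bil_single {ℓ r s : ℕ} (γ : Par ℓ r s) (i j : Fin r) :
    bil γ (Pi.single i 1) (Pi.single j 1) = if h : j < i then γ ⟨(i, j), h⟩ else 0 := by
  classical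
  unfold bil
  by_cases h : j < i
  · rw [dif_pos h, Finset.sum_eq_single (⟨(i, j), h⟩ : T r)]
    · simp
    · rintro ⟨⟨a, b⟩, hab⟩ - hne
      by_cases ha : a = i
      · by_cases hb : b = j
        · subst ha hb
          exact absurd rfl hne
        · simp [Pi.single_apply, hb]
      · simp [Pi.single_apply, ha]
    · intro h1
      exact absurd (Finset.mem_univ _) h1
  · rw [dif_neg h]
    refine Finset.sum_eq_zero ?_
    rintro ⟨⟨a, b⟩, hab⟩ -
    by_cases ha : a = i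
    · by_cases hb : b = j
      · subst ha hb
        exact absurd hab h
      · simp [Pi.single_apply, hb]
    · simp [Pi.single_apply, ha]

/-- the group with the parameters `γ` -/
structure Gp {ℓ r s : ℕ} (γ : Par ℓ r s) : Type where
  fst : Fin r → ZMod ℓ
  snd : Fin s → ZMod ℓ

namespace Gp

variable {ℓ r s : ℕ} {γ : Par ℓ r s}

@[ext] lemma ext' {x y : Gp γ} (h1 : x.fst = y.fst) (h2 : x.snd = y.snd) : x = y := by
  cases x
  cases y
  simp_all

instance : Mul (Gp γ) := ⟨fun x y => ⟨x.fst + y.fst, x.snd + y.snd + bil γ x.fst y.fst⟩⟩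
instance : One (Gp γ) := ⟨⟨0, 0⟩⟩
instance : Inv (Gp γ) := ⟨fun x => ⟨-x.fst, -x.snd + bil γ x.fst x.fst⟩⟩

@[simp] lemma mul_fst (x y : Gp γ) : (x * y).fst = x.fst + y.fst := rfl
@[simp] lemma mul_snd (x y : Gp γ) : (x * y).snd = x.snd + y.snd + bil γ x.fst y.fst := rfl
@[simp] lemma one_fst : (1 : Gp γ).fst = 0 := rfl
@[simp] lemma one_snd : (1 : Gp γ).snd = 0 := rfl
@[simp] lemma inv_fst (x : Gp γ) : (x⁻¹).fst = -x.fst := rfl
@[simp] lemma inv_snd (x : Gp γ) : (x⁻¹).snd = -x.snd + bil γ x.fst x.fst := rfl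

instance : Group (Gp γ) :=
  Group.ofLeftAxioms
    (fun x y z => by
      ext1
      · simp only [mul_fst]
        abel
      · simp only [mul_snd, mul_fst, bil_add_left, bil_add_right]
        abel)
    (fun x => by
      ext1
      · simp
      · simp [bil_zero_left])
    (fun x => by
      ext1
      · simp
      · simp only [mul_snd, inv_snd, inv_fst, bil_neg_left, one_snd]
        abel)

/-- the underlying set -/
def equiv : Gp γ ≃ (Fin r → ZMod ℓ) × (Fin s → ZMod ℓ) where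
  toFun x := (x.fst, x.snd)
  invFun x := ⟨x.1, x.2⟩
  left_inv _ := rfl
  right_inv _ := rfl

lemma card [NeZero ℓ] : Nat.card (Gp γ) = ℓ ^ (r + s) := by
  rw [Nat.card_congr equiv, Nat.card_prod, Nat.card_eq_fintype_card, Nat.card_eq_fintype_card,
    Fintype.card_pi, Fintype.card_pi]
  simp [ZMod.card, pow_add]

instance [NeZero ℓ] : Finite (Gp γ) := Finite.of_equiv _ equiv.symm

/-- the central subgroup -/
def ι (γ : Par ℓ r s) : Multiplicative (Fin s → ZMod ℓ) →* Gp γ where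
  toFun a := ⟨0, a.toAdd⟩
  map_one' := rfl
  map_mul' a b := by
    ext1
    · simp
    · simp [bil_zero_left]

lemma ι_injective : Function.Injective (ι γ) := by
  intro a b h
  exact congrArg Gp.snd h

/-- the generators -/
def e (γ : Par ℓ r s) (i : Fin r) : Gp γ := ⟨Pi.single i 1, 0⟩

lemma comm_e {i j : Fin r} (h : j < i) :
    e γ i * e γ j = e γ j * e γ i * ι γ (Multiplicative.ofAdd (γ ⟨(i, j), h⟩)) := by
  ext1
  · simp [e, ι, add_comm]
  · have h1 : ¬ i < j := not_lt.mpr h.le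
    simp [e, ι, bil_single, h, h1, bil_zero_right, add_comm]

end Gp

/-- the commutators are central and their `ℓ`-th powers are trivial -/
def Special (ℓ : ℕ) (A : Type) [Group A] : Prop :=
  ∀ x y : A, (∀ z, x * y * x⁻¹ * y⁻¹ * z = z * (x * y * x⁻¹ * y⁻¹)) ∧ (x * y * x⁻¹ * y⁻¹) ^ ℓ = 1

lemma Gp.special {ℓ r s : ℕ} (γ : Par ℓ r s) : Special ℓ (Gp γ) := by
  intro x y
  have h0 : (x * y * x⁻¹ * y⁻¹).fst = 0 := by
    simp only [mul_fst, inv_fst]
    abel
  generalize x * y * x⁻¹ * y⁻¹ = c at h0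
  refine ⟨fun z => ?_, ?_⟩
  · ext1
    · simp only [mul_fst]
      abel
    · simp only [mul_snd, h0, bil_zero_left, bil_zero_right]
      abel
  · have h1 : c = ι γ (Multiplicative.ofAdd c.snd) := by
      ext1
      · exact h0
      · rfl
    rw [h1, ← map_pow, ← ofAdd_nsmul]
    have h2 : ℓ • c.snd = 0 := by
      funext t
      simp
    rw [h2, ofAdd_zero, map_one]

lemma hom_ext {ℓ s : ℕ} [NeZero ℓ] {H : Type} [Group H] {f g : Multiplicative (Fin s → ZMod ℓ) →* H}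
    (h : ∀ t : Fin s, f (Multiplicative.ofAdd (Pi.single t 1)) = g (Multiplicative.ofAdd (Pi.single t 1))) :
    f = g := by
  classical
  have h1 : ∀ a : Fin s → ZMod ℓ, Multiplicative.ofAdd a ∈ MonoidHom.eqLocus f g := by
    intro a
    have h2 : a = ∑ t : Fin s, (a t).val • Pi.single t (1 : ZMod ℓ) := by
      ext t
      rw [Finset.sum_apply, Finset.sum_eq_single t]
      · simp
      · intro t' _ hne
        simp [hne.symm]
      · simp
    rw [h2, ofAdd_sum]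
    refine Subgroup.prod_mem _ fun t _ => ?_
    rw [ofAdd_nsmul]
    exact Subgroup.pow_mem _ (h t) _
  exact MonoidHom.ext fun a => h1 (Multiplicative.toAdd a)

/-- a finite group `H` contains at most `|H| ^ (r + s)` of the groups `Gp γ` -/
lemma embed_card {ℓ r s : ℕ} [NeZero ℓ] (H : Type) [Group H] [Finite H] :
    Nat.card {γ : Par ℓ r s // ∃ φ : Gp γ →* H, Function.Injective φ} ≤ Nat.card H ^ (r + s) := by
  classical
  choose φ hφ using fun γ : {γ : Par ℓ r s // ∃ φ : Gp γ →* H, Function.Injective φ} => γ.2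
  have hinj : Function.Injective
      fun (γ : {γ : Par ℓ r s // ∃ φ : Gp γ →* H, Function.Injective φ}) (x : Fin r ⊕ Fin s) =>
        Sum.elim (fun i => φ γ (Gp.e γ.1 i))
          (fun t => φ γ (Gp.ι γ.1 (Multiplicative.ofAdd (Pi.single t 1)))) x := by
    intro γ δ h
    have he : ∀ i, φ γ (Gp.e γ.1 i) = φ δ (Gp.e δ.1 i) := fun i => congrFun h (Sum.inl i)
    have hι : (φ γ).comp (Gp.ι γ.1) = (φ δ).comp (Gp.ι δ.1) :=
      hom_ext fun t => congrFun h (Sum.inr t)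
    apply Subtype.ext
    funext ⟨⟨i, j⟩, hij⟩
    have h1 : φ γ (Gp.ι γ.1 (Multiplicative.ofAdd (γ.1 ⟨(i, j), hij⟩))) =
        φ δ (Gp.ι δ.1 (Multiplicative.ofAdd (δ.1 ⟨(i, j), hij⟩))) := by
      have h2 := congrArg (φ γ) (Gp.comm_e (γ := γ.1) hij)
      have h3 := congrArg (φ δ) (Gp.comm_e (γ := δ.1) hij)
      rw [map_mul, map_mul, map_mul] at h2 h3
      rw [he i, he j] at h2
      exact mul_left_cancel (h2.symm.trans h3)
    have h4 : φ δ (Gp.ι δ.1 (Multiplicative.ofAdd (δ.1 ⟨(i, j), hij⟩))) =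
        φ γ (Gp.ι γ.1 (Multiplicative.ofAdd (δ.1 ⟨(i, j), hij⟩))) :=
      (DFunLike.congr_fun hι _).symm
    exact Multiplicative.ofAdd.injective (Gp.ι_injective (hφ γ (h1.trans h4)))
  refine (Nat.card_le_card_of_injective _ hinj).trans ?_
  rw [Nat.card_fun, Nat.card_sum, Nat.card_eq_fintype_card (α := Fin r),
    Nat.card_eq_fintype_card (α := Fin s), Fintype.card_fin, Fintype.card_fin]

/-- the pairs `j < i` -/
def eT (r : ℕ) : T r ≃ Σ i : Fin r, Fin i.1 where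
  toFun x := ⟨x.1.1, ⟨x.1.2.1, x.2⟩⟩
  invFun y := ⟨(y.1, ⟨y.2.1, y.2.2.trans y.1.2⟩), y.2.2⟩
  left_inv _ := rfl
  right_inv _ := rfl

lemma card_T (r : ℕ) : Nat.card (T r) = r * (r - 1) / 2 := by
  rw [Nat.card_congr (eT r), Nat.card_eq_fintype_card, Fintype.card_sigma]
  simp only [Fintype.card_fin]
  rw [Fin.sum_univ_eq_sum_range (fun i => i), Finset.sum_range_id]

lemma card_Par (ℓ m : ℕ) [NeZero ℓ] : Nat.card (Par ℓ (2 * m) m) = ℓ ^ (m ^ 2 * (2 * m - 1)) := by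
  rw [Nat.card_fun, Nat.card_fun, card_T, Nat.card_zmod, Nat.card_eq_fintype_card (α := Fin m),
    Fintype.card_fin, ← pow_mul]
  congr 1
  have h1 : 2 * m * (2 * m - 1) / 2 = m * (2 * m - 1) := by
    rw [mul_assoc, Nat.mul_div_cancel_left _ (by norm_num)]
  rw [h1]
  ring

/-- many of the groups `G × Gp γ` are pairwise non-isomorphic -/
lemma classes {ℓ : ℕ} [NeZero ℓ] (m : ℕ) (G : Type) [Group G] [Finite G] :
    ∃ (k : ℕ) (γ : Fin k → Par ℓ (2 * m) m),
      (∀ i j, Nonempty (G × Gp (γ i) ≃* G × Gp (γ j)) → i = j) ∧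
      ℓ ^ (m ^ 2 * (2 * m - 1)) ≤ k * (Nat.card G * ℓ ^ (3 * m)) ^ (3 * m) := by
  classical
  let R : Setoid (Par ℓ (2 * m) m) :=
    { r := fun γ δ => Nonempty (G × Gp γ ≃* G × Gp δ)
      iseqv := ⟨fun _ => ⟨MulEquiv.refl _⟩, fun ⟨e⟩ => ⟨e.symm⟩, fun ⟨e⟩ ⟨f⟩ => ⟨e.trans f⟩⟩ }
  have : Fintype (Quotient R) := Fintype.ofFinite _
  refine ⟨Fintype.card (Quotient R), fun i => Quotient.out ((Fintype.equivFin (Quotient R)).symm i),
    fun i j h => ?_, ?_⟩
  · have h1 : (Fintype.equivFin (Quotient R)).symm i = (Fintype.equivFin (Quotient R)).symm j := by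
      rw [← Quotient.out_eq ((Fintype.equivFin (Quotient R)).symm i),
        ← Quotient.out_eq ((Fintype.equivFin (Quotient R)).symm j)]
      exact Quotient.sound h
    exact (Fintype.equivFin (Quotient R)).symm.injective h1
  · have h0 := Finset.card_le_mul_card_image_of_maps_to (s := (Finset.univ : Finset (Par ℓ (2 * m) m)))
      (t := (Finset.univ : Finset (Quotient R))) (f := fun γ => (⟦γ⟧ : Quotient R))
      (fun _ _ => Finset.mem_univ _) ((Nat.card G * ℓ ^ (3 * m)) ^ (3 * m)) (fun q _ => by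
        have h2 := embed_card (ℓ := ℓ) (r := 2 * m) (s := m) (G × Gp (Quotient.out q))
        rw [Nat.card_prod, Gp.card, show 2 * m + m = 3 * m by ring] at h2
        refine le_trans ?_ h2
        rw [Nat.card_eq_fintype_card, Fintype.card_subtype]
        refine Finset.card_le_card fun γ hγ => ?_
        rw [Finset.mem_filter] at hγ ⊢
        refine ⟨Finset.mem_univ _, ?_⟩
        have h3 : (⟦γ⟧ : Quotient R) = ⟦Quotient.out q⟧ := hγ.2.trans (Quotient.out_eq q).symm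
        obtain ⟨f⟩ : Nonempty (G × Gp γ ≃* G × Gp (Quotient.out q)) := Quotient.exact h3
        refine ⟨f.toMonoidHom.comp (MonoidHom.inr G (Gp γ)), ?_⟩
        exact f.injective.comp (fun a b h => congrArg Prod.snd h))
    rw [Finset.card_univ, Finset.card_univ, ← Nat.card_eq_fintype_card, card_Par] at h0
    exact h0.trans_eq (mul_comm _ _)

lemma cubic {ε C L x : ℝ} (hε : 0 < ε) (hC : 0 ≤ C) (h1 : L - (C + 3) ≤ x) (h2 : x ≤ L) (h0 : 0 ≤ x)
    (h3 : C + 3 ≤ L) (h4 : (2 / 9 * (C + 3) + 10 / 9 + C) / ε < L) :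
    L * ((2 / 27 - ε) * L ^ 2) < 2 / 27 * x ^ 3 - 10 / 9 * x ^ 2 - C * x := by
  have hL : 1 ≤ L := by linarith
  rw [div_lt_iff₀ hε] at h4
  have h5 : (L - (C + 3)) ^ 3 ≤ x ^ 3 := pow_le_pow_left₀ (by linarith) h1 3
  have h6 : L ^ 3 - 3 * (C + 3) * L ^ 2 ≤ (L - (C + 3)) ^ 3 := by
    nlinarith [mul_nonneg (sq_nonneg (C + 3)) (by linarith : 0 ≤ 3 * L - (C + 3))]
  have h7 : x ^ 2 ≤ L ^ 2 := pow_le_pow_left₀ h0 h2 2
  have h8 : C * x ≤ C * L ^ 2 := by
    refine mul_le_mul_of_nonneg_left (h2.trans ?_) hC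
    nlinarith
  have h9 : 0 < L ^ 2 := by positivity
  have h10 := mul_lt_mul_of_pos_right h4 h9
  nlinarith

/-- **The number of direct products with groups of prime power order.** -/
theorem many' {ℓ : ℕ} (hℓ : ℓ.Prime) {ε : ℝ} (hε : 0 < ε) (G : Type) [Group G] [Finite G] :
    ∀ᶠ N : ℕ in atTop, ∃ (k : ℕ) (A : Fin k → Type) (_ : ∀ i, Group (A i)),
      (∀ i, Finite (A i) ∧ IsPGroup ℓ (A i) ∧ Nat.card G * Nat.card (A i) ≤ N ∧ Special ℓ (A i)) ∧
      (∀ i j, Nonempty (G × A i ≃* G × A j) → i = j) ∧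
      (N : ℝ) ^ ((2 / 27 - ε) * Real.logb ℓ N ^ 2) < k := by
  have : NeZero ℓ := ⟨hℓ.ne_zero⟩
  have hℓ1 : (1 : ℝ) < ℓ := by exact_mod_cast hℓ.one_lt
  have hℓ0 : (0 : ℝ) < ℓ := by linarith
  obtain ⟨c, hc⟩ : ∃ c, c = Nat.card G := ⟨_, rfl⟩
  have hc0 : 0 < c := hc ▸ Nat.card_pos
  have hc1 : (1 : ℝ) ≤ c := by exact_mod_cast hc0
  obtain ⟨C, hC⟩ : ∃ C, C = Real.logb ℓ c := ⟨_, rfl⟩
  have hC0 : 0 ≤ C := hC ▸ Real.logb_nonneg hℓ1 hc1
  have hlim : Tendsto (fun N : ℕ => Real.logb ℓ N) atTop atTop :=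
    (Real.tendsto_logb_atTop hℓ1).comp tendsto_natCast_atTop_atTop
  filter_upwards [hlim.eventually_ge_atTop (C + 3),
    hlim.eventually_gt_atTop ((2 / 9 * (C + 3) + 10 / 9 + C) / ε), eventually_ge_atTop c]
    with N h1 h2 h3
  obtain ⟨m, hm⟩ : ∃ m, m = Nat.log ℓ (N / c) / 3 := ⟨_, rfl⟩
  have hN0 : 0 < N := lt_of_lt_of_le hc0 h3
  have hNc : N / c ≠ 0 := (Nat.div_pos h3 hc0).ne'
  have h4 : c * ℓ ^ (3 * m) ≤ N := by
    have h5 : ℓ ^ (3 * m) ≤ N / c :=
      (Nat.pow_le_pow_right hℓ.pos (by rw [hm]; exact Nat.mul_div_le _ _)).trans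
        (Nat.pow_log_le_self ℓ hNc)
    calc c * ℓ ^ (3 * m) ≤ c * (N / c) := Nat.mul_le_mul_left _ h5
      _ ≤ N := Nat.mul_div_le _ _
  have h5 : N < c * ℓ ^ (3 * m + 3) := by
    have h6 : N / c < ℓ ^ (Nat.log ℓ (N / c) + 1) := Nat.lt_pow_succ_log_self hℓ.one_lt _
    have h7 : ℓ ^ (Nat.log ℓ (N / c) + 1) ≤ ℓ ^ (3 * m + 3) :=
      Nat.pow_le_pow_right hℓ.pos (by omega)
    have h8 := h6.trans_le h7
    rw [Nat.div_lt_iff_lt_mul hc0] at h8
    rwa [mul_comm]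
  obtain ⟨k, γ, h6, h7⟩ := classes (ℓ := ℓ) m G
  refine ⟨k, fun i => Gp (γ i), fun i => inferInstance,
    fun i => ⟨inferInstance, ?_, ?_, Gp.special (γ i)⟩, h6, ?_⟩
  · exact IsPGroup.of_card (n := 2 * m + m) Gp.card
  · rw [Gp.card, ← hc, show 2 * m + m = 3 * m by ring]
    exact h4
  · have hcr : (c : ℝ) = (ℓ : ℝ) ^ C := by
      rw [hC, Real.rpow_logb hℓ0 hℓ1.ne' (by linarith)]
    have hNr : (N : ℝ) = (ℓ : ℝ) ^ Real.logb ℓ N := by
      rw [Real.rpow_logb hℓ0 hℓ1.ne' (by exact_mod_cast hN0)]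
    obtain ⟨L, hL⟩ : ∃ L, L = Real.logb ℓ N := ⟨_, rfl⟩
    rw [← hL] at hNr h1 h2 ⊢
    have h8 : (3 * m : ℕ) ≤ L := by
      have h9 : (((ℓ ^ (3 * m) : ℕ)) : ℝ) ≤ N := by
        exact_mod_cast (Nat.le_mul_of_pos_left _ hc0).trans h4
      rw [hL, Real.le_logb_iff_rpow_le hℓ1 (by exact_mod_cast hN0), Real.rpow_natCast]
      exact_mod_cast h9
    have h9 : L - (C + 3) ≤ (3 * m : ℕ) := by
      have h10 : (N : ℝ) ≤ (ℓ : ℝ) ^ (C + 3 + (3 * m : ℕ)) := by
        rw [Real.rpow_add hℓ0, Real.rpow_add hℓ0, ← hcr, Real.rpow_natCast,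
          show (3 : ℝ) = ((3 : ℕ) : ℝ) by norm_num, Real.rpow_natCast, mul_assoc, ← pow_add,
          add_comm 3]
        exact_mod_cast h5.le
      rw [hNr] at h10
      have := (Real.rpow_le_rpow_left_iff hℓ1).mp h10
      linarith
    have h10 := cubic hε hC0 h9 h8 (Nat.cast_nonneg _) h1 h2
    rw [hNr, ← Real.rpow_mul hℓ0.le]
    have h11 : (ℓ : ℝ) ^ ((2 : ℝ) * m ^ 3 - m ^ 2) ≤ k * (ℓ : ℝ) ^ ((C + 3 * m) * (3 * m)) := by
      have h12 : ((ℓ ^ (m ^ 2 * (2 * m - 1)) : ℕ) : ℝ) ≤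
          ((k * (Nat.card G * ℓ ^ (3 * m)) ^ (3 * m) : ℕ) : ℝ) := by exact_mod_cast h7
      rw [← hc] at h12
      push_cast at h12
      have h13 : (ℓ : ℝ) ^ ((2 : ℝ) * m ^ 3 - m ^ 2) = (ℓ : ℝ) ^ (m ^ 2 * (2 * m - 1)) := by
        have h16 : (2 : ℝ) * m ^ 3 - m ^ 2 = ((m ^ 2 * (2 * m - 1) : ℕ) : ℝ) := by
          rcases Nat.eq_zero_or_pos m with h | h
          · simp [h]
          · push_cast [Nat.cast_sub (by omega : 1 ≤ 2 * m)]
            ring
        rw [h16, Real.rpow_natCast]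
      have h14 : (ℓ : ℝ) ^ ((C + 3 * m) * (3 * m)) = ((c : ℝ) * (ℓ : ℝ) ^ (3 * m)) ^ (3 * m) := by
        rw [hcr, ← Real.rpow_natCast (ℓ : ℝ) (3 * m), ← Real.rpow_add hℓ0, ← Real.rpow_natCast,
          ← Real.rpow_mul hℓ0.le]
        push_cast
        ring_nf
      rw [h13, h14]
      exact h12
    have h15 : (0 : ℝ) < (ℓ : ℝ) ^ ((C + 3 * m) * (3 * m)) := Real.rpow_pos_of_pos hℓ0 _
    rw [← div_le_iff₀ h15, ← Real.rpow_sub hℓ0] at h11
    refine lt_of_lt_of_le (Real.rpow_lt_rpow_of_exponent_lt hℓ1 ?_) h11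
    refine h10.trans_eq ?_
    push_cast
    ring

theorem many {ℓ : ℕ} (hℓ : ℓ.Prime) {ε : ℝ} (hε : 0 < ε) (G : Type) [Group G] [Finite G] :
    ∀ᶠ N : ℕ in atTop, ∃ (k : ℕ) (A : Fin k → Type) (_ : ∀ i, Group (A i)),
      (∀ i, Finite (A i) ∧ IsPGroup ℓ (A i) ∧ Nat.card G * Nat.card (A i) ≤ N) ∧
      (∀ i j, Nonempty (G × A i ≃* G × A j) → i = j) ∧
      (N : ℝ) ^ ((2 / 27 - ε) * Real.logb ℓ N ^ 2) < k := by
  filter_upwards [many' hℓ hε G] with N hN
  obtain ⟨k, A, hA, h1, h2, h3⟩ := hN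
  exact ⟨k, A, hA, fun i => ⟨(h1 i).1, (h1 i).2.1, (h1 i).2.2.1⟩, h2, h3⟩

end Pool.Agent.Helper98.NG
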