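import Pool.Agent.Helper98.NG.Count

/-!
# From one exceptional group to many
-/

set_option autoImplicit false

open Filter

namespace Pool.Agent.Helper98.NG

/-- There are more than `x` isomorphism classes of finite groups of order at most `N` with the
property `P`: there are `k > x` such groups, no two of which are isomorphic. -/
def MoreThan (P : ∀ (G : Type) [Group G], Prop) (N : ℕ) (x : ℝ) : Prop :=
  ∃ (k : ℕ) (F : Fin k → Type) (_ : ∀ i, Group (F i)), x < k ∧
    (∀ i, Finite (F i) ∧ Nat.card (F i) ≤ N ∧ P (F i)) ∧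
    ∀ i j, Nonempty (F i ≃* F j) → i = j

/-- if `P` passes from `G` to the direct products of `G` with the groups of order a power of `ℓ`, then one
group with the property `P` gives more than `N ^ ((2 / 27 - ε) (log_ℓ N) ^ 2)` of them of order at most `N` -/
theorem moreThan {P : ∀ (G : Type) [Group G], Prop} {ℓ : ℕ} (hℓ : ℓ.Prime) {ε : ℝ} (hε : 0 < ε)
    {G : Type} [Group G] [Finite G]
    (h : ∀ (A : Type) [Group A] [Finite A], IsPGroup ℓ A → P (G × A)) :
    ∀ᶠ N : ℕ in atTop, MoreThan P N ((N : ℝ) ^ ((2 / 27 - ε) * Real.logb ℓ N ^ 2)) := by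
  filter_upwards [many hℓ hε G] with N hN
  obtain ⟨k, A, hA, h1, h2, h3⟩ := hN
  refine ⟨k, fun i => G × A i, fun i => inferInstance, h3, fun i => ?_, h2⟩
  obtain ⟨h4, h5, h6⟩ := h1 i
  exact ⟨inferInstance, by rw [Nat.card_prod]; exact h6, h (A i) h5⟩

/-- the number of exceptions is zero or large -/
theorem iff_few {P : ∀ (G : Type) [Group G], Prop} {ℓ : ℕ} (hℓ : ℓ.Prime) {ε : ℝ} (hε : 0 < ε)
    (h : ∀ (G A : Type) [Group G] [Finite G] [Group A] [Finite A], IsPGroup ℓ A → P (G × A) → P G) :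
    (∀ (G : Type) [Group G] [Finite G], P G) ↔
      ∃ᶠ N : ℕ in atTop, ¬ MoreThan (fun G _ => ¬ P G) N ((N : ℝ) ^ ((2 / 27 - ε) * Real.logb ℓ N ^ 2)) := by
  constructor
  · intro h1
    refine Eventually.frequently (Eventually.of_forall fun N => ?_)
    rintro ⟨k, F, hF, h2, h3, -⟩
    have h4 : 0 < k := by
      have h5 : (0 : ℝ) ≤ (N : ℝ) ^ ((2 / 27 - ε) * Real.logb ℓ N ^ 2) :=
        Real.rpow_nonneg (Nat.cast_nonneg _) _
      exact_mod_cast h5.trans_lt h2
    obtain ⟨h5, -, h6⟩ := h3 ⟨0, h4⟩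
    exact h6 (h1 _)
  · intro h1 G _ _
    by_contra hG
    have h2 := moreThan (P := fun G _ => ¬ P G) hℓ hε (G := G)
      (fun A _ _ hA hP => hG (h G A hA hP))
    exact h1 (h2.mono fun N hN hcon => hcon hN)

/-- the same with the special groups only -/
theorem moreThan' {P : ∀ (G : Type) [Group G], Prop} {ℓ : ℕ} (hℓ : ℓ.Prime) {ε : ℝ} (hε : 0 < ε)
    {G : Type} [Group G] [Finite G]
    (h : ∀ (A : Type) [Group A] [Finite A], IsPGroup ℓ A → Special ℓ A → P (G × A)) :
    ∀ᶠ N : ℕ in atTop, MoreThan P N ((N : ℝ) ^ ((2 / 27 - ε) * Real.logb ℓ N ^ 2)) := by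
  filter_upwards [many' hℓ hε G] with N hN
  obtain ⟨k, A, hA, h1, h2, h3⟩ := hN
  refine ⟨k, fun i => G × A i, fun i => inferInstance, h3, fun i => ?_, h2⟩
  obtain ⟨h4, h5, h6, h7⟩ := h1 i
  exact ⟨inferInstance, by rw [Nat.card_prod]; exact h6, h (A i) h5 h7⟩

end Pool.Agent.Helper98.NG
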