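import Pool.Agent.Helper98.NG.Exc
import Pool.Graph.R_pool_sql_team_seeded_ab47071d.TH798.MK.Fib

/-!
# McKay bijections and direct products with groups of class two
-/

set_option autoImplicit false

open CategoryTheory Filter

namespace Pool.Agent.Helper98.NG

open Pool.Agent.TH798.MK Pool.Agent.W367.SN

/-- in a special group the irreducible characters of degree prime to `p` are linear -/
lemma dg_eq_one {p : ℕ} [hp : Fact p.Prime] {A : Type} [Group A] [Fintype A] (hA : Special p A)
    {χ : A → ℂ} (h : χ ∈ IrrC A) (hχ : ¬ p ∣ dg χ) : dg χ = 1 := by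
  classical
  obtain ⟨n, hn, ρ, h1, h2⟩ := exists_matrix h
  have hdg : dg χ = n := by
    apply dg_of
    rw [h1, map_one, Matrix.trace_one, Fintype.card_fin]
  rw [hdg] at hχ ⊢
  have hn0 : (n : ℂ) ≠ 0 := by exact_mod_cast hn.ne'
  have hne : Nonempty (Fin n) := ⟨⟨0, hn⟩⟩
  -- commutators are mapped to one
  have h3 : ∀ x y : A, ρ (x * y * x⁻¹ * y⁻¹) = 1 := by
    intro x y
    obtain ⟨h4, h5⟩ := hA x y
    obtain ⟨c, hc⟩ := h2 (ρ (x * y * x⁻¹ * y⁻¹)) fun g => by rw [← map_mul, h4, map_mul]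
    have h6 : c ^ n = 1 := by
      have h7 : (ρ (x * y * x⁻¹ * y⁻¹)).det = 1 := by
        have h8 : ∀ g : A, (ρ g).det * (ρ g⁻¹).det = 1 := fun g => by
          rw [← Matrix.det_mul, ← map_mul, mul_inv_cancel, map_one, Matrix.det_one]
        rw [map_mul, map_mul, map_mul, Matrix.det_mul, Matrix.det_mul, Matrix.det_mul]
        calc (ρ x).det * (ρ y).det * (ρ x⁻¹).det * (ρ y⁻¹).det
            = ((ρ x).det * (ρ x⁻¹).det) * ((ρ y).det * (ρ y⁻¹).det) := by ring
          _ = 1 := by rw [h8, h8, one_mul]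
      rw [hc, Matrix.det_smul, Matrix.det_one, mul_one, Fintype.card_fin] at h7
      exact h7
    have h7 : c ^ p = 1 := by
      have h8 : (ρ (x * y * x⁻¹ * y⁻¹)) ^ p = 1 := by rw [← map_pow, h5, map_one]
      rw [hc, smul_pow, one_pow] at h8
      have h9 := congrFun (congrFun h8 hne.some) hne.some
      simpa using h9
    have h8 : c = 1 := by
      have h9 : orderOf c ∣ Nat.gcd n p := Nat.dvd_gcd (orderOf_dvd_of_pow_eq_one h6)
        (orderOf_dvd_of_pow_eq_one h7)
      have h10 : Nat.gcd n p = 1 := by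
        rw [Nat.gcd_comm]
        exact (Nat.Prime.coprime_iff_not_dvd hp.out).mpr hχ
      rw [h10, Nat.dvd_one, orderOf_eq_one_iff] at h9
      exact h9
    rw [hc, h8, one_smul]
  have h4 : ∀ x y : A, ρ x * ρ y = ρ y * ρ x := by
    intro x y
    have h5 := h3 x y
    have h6 : x * y = (x * y * x⁻¹ * y⁻¹) * (y * x) := by group
    rw [← map_mul, ← map_mul, h6, map_mul, h5, one_mul]
  choose μ hμ using fun x => h2 (ρ x) fun g => h4 x g
  have h5 : ∀ x, χ x = n * μ x := by
    intro x
    rw [h1, hμ, Matrix.trace_smul, Matrix.trace_one, Fintype.card_fin, smul_eq_mul, mul_comm]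
  have h6 : ∀ x, μ x * μ x⁻¹ = 1 := by
    intro x
    have h7 : ρ x * ρ x⁻¹ = 1 := by rw [← map_mul, mul_inv_cancel, map_one]
    rw [hμ x, hμ x⁻¹, smul_mul_smul_comm, one_mul] at h7
    have h9 := congrFun (congrFun h7 hne.some) hne.some
    simpa using h9
  have h7 := irr_norm h
  have h8 : ∀ g, χ g * χ g⁻¹ = (n : ℂ) ^ 2 := by
    intro g
    rw [h5, h5]
    calc (n : ℂ) * μ g * (n * μ g⁻¹) = n ^ 2 * (μ g * μ g⁻¹) := by ring
      _ = n ^ 2 := by rw [h6, mul_one]
  simp only [h8, Finset.sum_const, Finset.card_univ, nsmul_eq_mul] at h7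
  have h9 : (Fintype.card A : ℂ) ≠ 0 := by exact_mod_cast Fintype.card_ne_zero
  have h10 : (n : ℂ) ^ 2 = 1 := by
    have := mul_left_cancel₀ h9 (h7.trans (mul_one _).symm)
    exact this
  have h11 : n ^ 2 = 1 := by exact_mod_cast h10
  exact (pow_eq_one_iff.mp h11).resolve_right (by norm_num)

section

variable {p : ℕ} [hp : Fact p.Prime] {G A : Type} [Group G] [Group A] [Fintype G] [Fintype A]

open Classical in
/-- the characters of a direct product with a special group -/
lemma cF_prod (hA : Special p A) {k : ZMod p} (hk : k ≠ 0) :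
    (cF p k (G × A)).card = (cF p k G).card * ((irrF A).filter (fun χ => dg χ = 1)).card := by
  have hp1 : ¬ p ∣ 1 := fun h => hp.out.one_lt.ne' (Nat.dvd_one.mp h)
  refine le_antisymm ?_ ?_
  · rw [← Finset.card_product]
    refine Finset.card_le_card_of_surjOn (fun x => outer x.1 x.2) ?_
    intro χ hχ
    obtain ⟨h1, h2⟩ := mem_cF.1 (Finset.mem_coe.1 hχ)
    obtain ⟨α, hα, β, hβ, rfl⟩ := outer_surj h1
    rw [dg_outer hα hβ] at h2
    have h3 : ¬ p ∣ dg β := fun h => notdvd_of_pm hk h2 (h.mul_left _)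
    have h4 := dg_eq_one hA hβ h3
    rw [h4, mul_one] at h2
    refine ⟨(α, β), ?_, rfl⟩
    rw [Finset.mem_coe, Finset.mem_product]
    exact ⟨mem_cF.2 ⟨hα, h2⟩, Finset.mem_filter.2 ⟨mem_irrF.2 hβ, h4⟩⟩
  · have h := prod_lower (G := G) (H := A) hp1 k
    rwa [Nat.cast_one, inv_one, mul_one] at h

lemma lin_pos : 0 < ((irrF A).filter (fun χ => dg χ = 1)).card := by
  classical
  refine Finset.card_pos.mpr ⟨fun _ => 1, Finset.mem_filter.2 ⟨mem_irrF.2 ?_, ?_⟩⟩
  · let ρ : A →* Matrix Unit Unit ℂ := 1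
    have h1 : (fun x => (ρ x).trace) = fun _ : A => (1 : ℂ) := by
      funext x
      simp [ρ]
    rw [← h1]
    apply mem_irr_of_matrix
    simp [ρ]
  · apply dg_of
    simp

end

section sylow

variable {G A : Type} [Group G] [Group A]

lemma exists_sylow_top [Finite G] [Finite A] {p : ℕ} [Fact p.Prime] (hA : IsPGroup p A) (P : Sylow p G) :
    ∃ R : Sylow p (G × A), (R : Subgroup (G × A)) = (P : Subgroup G).prod ⊤ := by
  have hp : p.Prime := Fact.out
  obtain ⟨a, ha⟩ := (IsPGroup.iff_card (p := p) (G := A)).mp hA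
  have h1 : Nat.card ((P : Subgroup G).prod (⊤ : Subgroup A)) =
      p ^ (Nat.card (G × A)).factorization p := by
    rw [Nat.card_congr (Subgroup.prodEquiv (P : Subgroup G) (⊤ : Subgroup A)).toEquiv,
      Nat.card_prod, Nat.card_prod, Nat.factorization_mul Nat.card_pos.ne' Nat.card_pos.ne',
      Finsupp.add_apply, Subgroup.card_top, ha, pow_add, Nat.Prime.factorization_pow hp,
      Finsupp.single_eq_same]
    congr 1
    exact Sylow.card_eq_multiplicity P
  exact ⟨Sylow.ofCard _ h1, Sylow.coe_ofCard _ h1⟩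

lemma normalizer_prod_top (P : Subgroup G) :
    Subgroup.normalizer ((P.prod (⊤ : Subgroup A) : Subgroup (G × A)) : Set (G × A)) =
      (Subgroup.normalizer (P : Set G)).prod ⊤ := by
  ext ⟨g, h⟩
  rw [Subgroup.mem_prod, Subgroup.mem_normalizer_iff, Subgroup.mem_normalizer_iff]
  simp only [Subgroup.mem_top, and_true]
  constructor
  · intro hh x
    have := hh (x, 1)
    simpa [Subgroup.mem_prod] using this
  · rintro hh ⟨x, y⟩
    simp only [Subgroup.mem_prod, Subgroup.mem_top, and_true, Prod.mk_mul_mk, Prod.inv_mk]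
    exact hh x

/-- the normalizer -/
noncomputable def normEquivTop (P : Subgroup G) (R : Subgroup (G × A)) (hR : R = P.prod ⊤) :
    Subgroup.normalizer (R : Set (G × A)) ≃* Subgroup.normalizer (P : Set G) × A :=
  (MulEquiv.subgroupCongr (by rw [hR]; exact normalizer_prod_top P)).trans
    ((Subgroup.prodEquiv (Subgroup.normalizer (P : Set G)) (⊤ : Subgroup A)).trans
      ((MulEquiv.refl _).prodCongr Subgroup.topEquiv))

/-- from `G × A` to `G` -/
theorem cnt_of_prod [Finite G] [Finite A] {p : ℕ} [Fact p.Prime] (hA : IsPGroup p A) (hS : Special p A)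
    {k : ZMod p} (hk : k ≠ 0)
    (h : ∀ R : Sylow p (G × A), cnt p k (G × A) =
      cnt p k (Subgroup.normalizer ((R : Subgroup (G × A)) : Set (G × A)))) (P : Sylow p G) :
    cnt p k G = cnt p k (Subgroup.normalizer ((P : Subgroup G) : Set G)) := by
  classical
  have : Fintype G := Fintype.ofFinite G
  have : Fintype A := Fintype.ofFinite A
  obtain ⟨R, hR⟩ := exists_sylow_top hA P
  have h1 := h R
  have : Fintype (Subgroup.normalizer ((R : Subgroup (G × A)) : Set (G × A))) := Fintype.ofFinite _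
  have : Fintype (Subgroup.normalizer ((P : Subgroup G) : Set G)) := Fintype.ofFinite _
  rw [cnt_eq, cnt_eq, cF_equiv k (normEquivTop (P : Subgroup G) (R : Subgroup (G × A)) hR),
    cF_prod hS hk, cF_prod hS hk] at h1
  rw [cnt_eq, cnt_eq]
  exact Nat.eq_of_mul_eq_mul_right lin_pos h1

end sylow

end Pool.Agent.Helper98.NG
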